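import Pool.Agent.helper56.TGT.SpecR

/-!
# Project TGT (MP_3703a7_ag), row NXV: the same number of branch points, different exponents (`p = 2` included)
-/

set_option autoImplicit false

namespace Pool.Agent.TGA

open Pool.Agent.TC Pool.Agent.TF Pool.Agent.CPT Pool.Agent.HC Pool.Agent.HC.SJ Pool.Agent.SJ

theorem NXV_cop (p k r : ℕ) (hp : p.Prime) (hr : ¬ p ∣ r) : Nat.Coprime r (p ^ k) :=
  Nat.Coprime.pow_right k ((Nat.Prime.coprime_iff_not_dvd hp).2 hr).symm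

theorem NXV_sum (p k m r : ℕ) (hp : p.Prime) (h5 : 1 ≤ m) (ndvd : ¬ p ^ k ∣ m) (hr2 : r < p ^ k) (hr : ¬ p ∣ r) : m * r / p ^ k + m * (p ^ k - r) / p ^ k = m - 1 := by
  refine HDM_div _ _ (p ^ k) (m - 1) (pow_pos hp.pos k) ?_ ?_
  · rw [← mul_add, Nat.add_sub_cancel' hr2.le]
    congr 1
    omega
  · intro h
    exact ndvd ((NXV_cop p k r hp hr).symm.dvd_of_dvd_mul_right h)

/-- `p` odd: as `NUX` -/
theorem NXV_odd (p k k' m v : ℕ) (hp : p.Prime) (hp2 : p ≠ 2) (hk : 0 < k) (hkk : k < k') (hm : 5 ≤ m) (hpm : ¬ p ^ k' ∣ m) :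
    ∃ r : ℕ, ¬ p ∣ r ∧ FKP_q (p ^ k') m (r % p ^ k') ≠ FKP_q (p ^ k) m (v * r % p ^ k) := by
  by_contra hcon
  push Not at hcon
  have hp3 : 3 ≤ p := by
    have := hp.two_le
    omega
  obtain ⟨e, rfl⟩ : ∃ e, k' = e + 1 := ⟨k' - 1, by omega⟩
  have hke : k ≤ e := by omega
  have he : 0 < e := by omega
  set q := p ^ e with hq
  have hq3 : 3 ≤ q := le_trans hp3 (Nat.le_self_pow he.ne' p)
  have hpq : p ∣ q := dvd_pow_self p he.ne'
  have hQ : p ^ (e + 1) = p * q := by rw [hq, pow_succ]; ring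
  set s := p / m + 1 with hs
  have hms : m * (p / m) ≤ p := Nat.mul_div_le p m
  have hms2 : p < m * (p / m) + m := by
    have h1 := Nat.div_add_mod p m
    have h2 := Nat.mod_lt p (show 0 < m by omega)
    omega
  have hsp : s ≤ p - 1 := by
    have h1 : p / m ≤ p / 5 := Nat.div_le_div_left hm (by norm_num)
    omega
  have hr1 : ¬ p ∣ 1 + s * q := by
    intro h
    have h1 : p ∣ 1 := (Nat.dvd_add_iff_left (Dvd.dvd.mul_left hpq s)).2 h
    exact hp.one_lt.ne' (Nat.dvd_one.1 h1)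
  have hr2 : 1 + s * q < p ^ (e + 1) := by
    rw [hQ]
    have h1 : s * q ≤ (p - 1) * q := Nat.mul_le_mul_right q hsp
    have h2 : (p - 1) * q + q = p * q := by
      obtain ⟨P, rfl⟩ : ∃ P, p = P + 1 := ⟨p - 1, by omega⟩
      simp only [Nat.add_sub_cancel]
      ring
    omega
  have h1 := hcon 1 (fun h => hp.one_lt.ne' (Nat.dvd_one.1 h))
  have h2 := hcon (1 + s * q) hr1
  have h3 : v * (1 + s * q) % p ^ k = v * 1 % p ^ k := by
    obtain ⟨c, hc⟩ : p ^ k ∣ q := pow_dvd_pow p hke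
    have h4 : v * (1 + s * q) = v * 1 + p ^ k * (v * s * c) := by
      rw [hc]; ring
    rw [h4, Nat.add_mul_mod_self_left]
  rw [h3, ← h1, Nat.mod_eq_of_lt hr2, Nat.mod_eq_of_lt (show 1 < p ^ (e + 1) by rw [hQ]; nlinarith)] at h2
  have s1 := NXV_sum p (e + 1) m 1 hp (by omega) hpm (by rw [hQ]; nlinarith) (fun h => hp.one_lt.ne' (Nat.dvd_one.1 h))
  have s2 := NXV_sum p (e + 1) m (1 + s * q) hp (by omega) hpm hr2 hr1
  have g1 : m * 1 / p ^ (e + 1) + 1 ≤ m * (1 + s * q) / p ^ (e + 1) := by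
    rw [← Nat.add_div_right _ (pow_pos hp.pos _)]
    refine Nat.div_le_div_right ?_
    rw [hQ]
    have h5 : p * q ≤ (m * s) * q := Nat.mul_le_mul_right q (by rw [hs]; linarith)
    nlinarith
  have g2 : m * (1 + s * q) / p ^ (e + 1) < m - 1 := by
    rw [Nat.div_lt_iff_lt_mul (pow_pos hp.pos _), hQ]
    have h5 : m * s ≤ p + m := by rw [hs, mul_add]; omega
    have h6 : (m * s) * q ≤ (p + m) * q := Nat.mul_le_mul_right q h5
    have h7 : m * (1 + s * q) = m + (m * s) * q := by ring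
    rw [h7]
    refine lt_of_le_of_lt (Nat.add_le_add_left h6 m) ?_
    obtain ⟨M, hM⟩ : ∃ M, m = M + 5 := ⟨m - 5, by omega⟩
    obtain ⟨P, hP⟩ : ∃ P, p = P + 3 := ⟨p - 3, by omega⟩
    obtain ⟨Q, hQ'⟩ : ∃ Q, q = Q + 3 := ⟨q - 3, by omega⟩
    rw [hM, hP, hQ', show M + 5 - 1 = M + 4 by omega]
    have h8 : (M + 4) * ((P + 3) * (Q + 3)) = (M + 5 + (P + 3 + (M + 5)) * (Q + 3)) + (M * P * Q + 3 * M * P + 2 * M * Q + 5 * M + 3 * P * Q + 9 * P + 4 * Q + 7) := by ring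
    rw [h8]
    omega
  unfold FKP_q redk at h2
  split_ifs at h2 <;> omega

/-- `p = 2` -/
theorem NXV_two (k k' m v : ℕ) (hk : 2 ≤ k) (hkk : k < k') (hm : 5 ≤ m) (hpm : ¬ 2 ^ k' ∣ m) :
    ∃ r : ℕ, ¬ 2 ∣ r ∧ FKP_q (2 ^ k') m (r % 2 ^ k') ≠ FKP_q (2 ^ k) m (v * r % 2 ^ k) := by
  by_contra hcon
  push Not at hcon
  have hp : Nat.Prime 2 := Nat.prime_two
  obtain ⟨e, rfl⟩ : ∃ e, k' = e + 1 := ⟨k' - 1, by omega⟩
  have hke : k ≤ e := by omega
  have he : 2 ≤ e := by omega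
  set q := 2 ^ e with hq
  have hq4 : 4 ≤ q := by
    have h1 : 2 ^ 2 ≤ 2 ^ e := Nat.pow_le_pow_right (by norm_num) he
    omega
  have hpq : 2 ∣ q := dvd_pow_self 2 (by omega)
  have hQ : 2 ^ (e + 1) = 2 * q := by rw [hq, pow_succ]; ring
  have hr1 : ¬ 2 ∣ 1 + q := by omega
  have hr2 : 1 + q < 2 ^ (e + 1) := by omega
  have h1 := hcon 1 (by norm_num)
  have h2 := hcon (1 + q) hr1
  have h3 : v * (1 + q) % 2 ^ k = v * 1 % 2 ^ k := by
    obtain ⟨c, hc⟩ : 2 ^ k ∣ q := pow_dvd_pow 2 hke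
    have h4 : v * (1 + q) = v * 1 + 2 ^ k * (v * c) := by
      rw [hc]; ring
    rw [h4, Nat.add_mul_mod_self_left]
  rw [h3, ← h1, Nat.mod_eq_of_lt hr2, Nat.mod_eq_of_lt (show 1 < 2 ^ (e + 1) by omega)] at h2
  have s1 := NXV_sum 2 (e + 1) m 1 hp (by omega) hpm (by omega) (by norm_num)
  have s2 := NXV_sum 2 (e + 1) m (1 + q) hp (by omega) hpm hr2 hr1
  have g1 : m * 1 / 2 ^ (e + 1) + 1 ≤ m * (1 + q) / 2 ^ (e + 1) := by
    rw [← Nat.add_div_right _ (pow_pos hp.pos _)]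
    refine Nat.div_le_div_right ?_
    rw [hQ]
    nlinarith
  have g2 : m * (1 + q) / 2 ^ (e + 1) < m - 1 := by
    rw [Nat.div_lt_iff_lt_mul (pow_pos hp.pos _), hQ]
    obtain ⟨M, hM⟩ : ∃ M, m = M + 5 := ⟨m - 5, by omega⟩
    obtain ⟨Q, hQ'⟩ : ∃ Q, q = Q + 4 := ⟨q - 4, by omega⟩
    rw [hM, hQ', show M + 5 - 1 = M + 4 by omega]
    have h8 : (M + 4) * (2 * (Q + 4)) = (M + 5) * (1 + (Q + 4)) + (M * Q + 3 * M + 3 * Q + 7) := by ring
    rw [h8]
    omega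
  unfold FKP_q redk at h2
  split_ifs at h2 <;> omega

theorem NXV : NXV_stmt := by
  intro p k k' m v hp hpk hk hkk hm hpm
  by_cases hp2 : p = 2
  · subst hp2
    have hk2 : 2 ≤ k := by
      by_contra h
      have h1 : k = 1 := by omega
      rw [h1] at hpk
      norm_num at hpk
    exact NXV_two k k' m v hk2 hkk hm hpm
  · exact NXV_odd p k k' m v hp hp2 hk hkk hm hpm

end Pool.Agent.TGA
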